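import Pool.Agent.H494R3.EX.A6

set_option autoImplicit false

/-!
# Functorial lifting of simplicial monoids by exchange rings along normalized embeddings

For a simplicial monoid `M` consider the field of rational functions over `ℚ` in variables
`X_{m,n,p,q}` (`m, n ∈ M`), and the generic matrices `Φ_{m,n}` of size `w(m+n)` for every
homomorphism `w : M → ℕ`. The smallest additive category with object set `M` containing the two
column blocks of all `Φ_{m,n}` and closed under inverses of column pairs has local endomorphism
rings at the atoms of `M` (specialisation of `Φ_{m,n}` at `w₁ + w₂` to the direct sum of its values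
at `w₁` and `w₂`). The ring `Ψ(M, u)` is the endomorphism ring of the object `u`.
-/

open CategoryTheory in
open Pool.Agent.H494R3.EX in
/-- There is a functor `Ψ` from simplicial monoids with order-unit and normalized embeddings to
exchange rings such that `V ∘ Ψ` is naturally isomorphic to the inclusion functor. Moreover the
rings `Ψ(M)` are unital, the maps `Ψ(f)` preserve the unit, and the isomorphism sends the class
of the unit to the order-unit. -/
theorem Pool.Agent.Results.MP_8d5706_al.EmbeddingLift.result :
    ∃ (Ψ : Simp ⥤ Exch) (i : Ψ ⋙ V ≅ incl) (one : ∀ M : Simp, (Ψ.obj M).carrier),
      Unital Ψ one ∧ Normalized one i.hom.app :=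
  main
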